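import Pool.Agent.H89.FE.Zed

/-!
# Permutations without cycles of given lengths

`no_long`: the proportion of the permutations of `n` points all of whose cycles of length at least `m` have a length
divisible by `2` or `3` is at most `1 / ∑ 1 / k`, `k` running over the other numbers between `m` and `n`.
-/

set_option autoImplicit false

open Finset Equiv

namespace Pool.Agent.H89.FE

theorem zed_replicate_add (k m : ℕ) (M : Multiset ℕ) (hk : k ∉ M) :
    zed (Multiset.replicate m k + M) = k ^ m * m.factorial * zed M := by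
  induction m with
  | zero => simp
  | succ m ih =>
    rw [Multiset.replicate_succ, Multiset.cons_add, zed_cons, ih, Multiset.count_add, Multiset.count_replicate_self,
      Multiset.count_eq_zero.2 hk, add_zero, pow_succ, Nat.factorial_succ]
    ring

theorem map_prod_replicate_add (w : ℕ → ℝ) (k m : ℕ) (M : Multiset ℕ) :
    ((Multiset.replicate m k + M).map w).prod = w k ^ m * (M.map w).prod := by
  rw [Multiset.map_add, Multiset.prod_add, Multiset.map_replicate, Multiset.prod_replicate]

/-- the multisets of positive numbers with sum at most `N` -/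
noncomputable def XX (N : ℕ) : Finset (Multiset ℕ) := (range (N + 1)).biUnion PP

theorem mem_XX {N : ℕ} {M : Multiset ℕ} : M ∈ XX N ↔ M.sum ≤ N ∧ ∀ k ∈ M, 0 < k := by
  rw [XX, mem_biUnion]
  constructor
  · rintro ⟨j, hj, hM⟩
    obtain ⟨h1, h2⟩ := mem_PP.1 hM
    rw [mem_range] at hj
    exact ⟨by omega, h2⟩
  · rintro ⟨h1, h2⟩
    exact ⟨M.sum, mem_range.2 (by omega), mem_PP.2 ⟨rfl, h2⟩⟩

theorem f_nonneg {w : ℕ → ℝ} (hw : ∀ k, 0 ≤ w k) (M : Multiset ℕ) : 0 ≤ (M.map w).prod / zed M := by
  refine div_nonneg (Multiset.prod_nonneg fun x hx => ?_) (Nat.cast_nonneg _)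
  obtain ⟨k, _, rfl⟩ := Multiset.mem_map.1 hx
  exact hw k

/-- the bound by the exponential -/
theorem sum_supp_le {w : ℕ → ℝ} (hw : ∀ k, 0 ≤ w k) (N : ℕ) (s : Finset ℕ) (hs : ∀ k ∈ s, 0 < k) :
    ∑ M ∈ (XX N).filter (fun M => ∀ k ∈ M, k ∈ s), (M.map w).prod / zed M ≤
      Real.exp (∑ k ∈ s, w k / k) := by
  classical
  induction s using Finset.induction_on with
  | empty =>
    have : (XX N).filter (fun M => ∀ k ∈ M, k ∈ (∅ : Finset ℕ)) = {0} := by
      ext M
      rw [mem_filter, mem_singleton, mem_XX]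
      constructor
      · rintro ⟨_, h⟩
        exact Multiset.eq_zero_of_forall_notMem fun k hk => by simpa using h k hk
      · rintro rfl
        simp
    rw [this, sum_singleton, zed_zero]
    simp
  | insert a s ha ih =>
    have ha0 : 0 < a := hs a (mem_insert_self a s)
    have ih' := ih fun k hk => hs k (mem_insert_of_mem hk)
    rw [sum_insert ha, Real.exp_add]
    have hprod : (∑ m ∈ range (N + 1), (w a / a) ^ m / m.factorial) *
        (∑ M ∈ (XX N).filter (fun M => ∀ k ∈ M, k ∈ s), (M.map w).prod / zed M) ≤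
        Real.exp (w a / a) * Real.exp (∑ k ∈ s, w k / k) := by
      refine mul_le_mul ?_ ih' (sum_nonneg fun M _ => f_nonneg hw M) (Real.exp_pos _).le
      exact Real.sum_le_exp_of_nonneg (div_nonneg (hw a) (Nat.cast_nonneg _)) _
    refine le_trans ?_ hprod
    rw [sum_mul_sum, ← sum_product']
    have hterm : ∀ M ∈ (XX N).filter (fun M => ∀ k ∈ M, k ∈ insert a s),
        (M.count a, M.filter (fun k => k ≠ a)) ∈
          range (N + 1) ×ˢ (XX N).filter (fun M => ∀ k ∈ M, k ∈ s) ∧
        (M.map w).prod / zed M = (w a / a) ^ (M.count a) / (M.count a).factorial *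
          (((M.filter (fun k => k ≠ a)).map w).prod / zed (M.filter (fun k => k ≠ a))) := by
      intro M hM
      obtain ⟨hM1, hM2⟩ := mem_filter.1 hM
      obtain ⟨hM3, hM4⟩ := mem_XX.1 hM1
      have hsplit : M = Multiset.replicate (M.count a) a + M.filter (fun k => k ≠ a) := by
        rw [← Multiset.filter_eq' M a]
        exact (Multiset.filter_add_not _ M).symm
      have hsum : M.count a * a + (M.filter (fun k => k ≠ a)).sum ≤ N := by
        have h1 := hM3
        rw [hsplit, Multiset.sum_add, Multiset.sum_replicate, smul_eq_mul] at h1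
        simpa using h1
      refine ⟨mem_product.2 ⟨?_, ?_⟩, ?_⟩
      · have h2 : M.count a * 1 ≤ M.count a * a := Nat.mul_le_mul_left _ ha0
        rw [mem_range]
        simp only
        omega
      · refine mem_filter.2 ⟨mem_XX.2 ⟨by simp only; omega, fun k hk => hM4 k (Multiset.mem_filter.1 hk).1⟩, ?_⟩
        intro k hk
        obtain ⟨hk1, hk2⟩ := Multiset.mem_filter.1 hk
        exact (mem_insert.1 (hM2 k hk1)).resolve_left hk2
      · have h3 : a ∉ M.filter (fun k => k ≠ a) := by
          rw [Multiset.mem_filter]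
          simp
        conv_lhs => rw [hsplit]
        rw [map_prod_replicate_add, zed_replicate_add _ _ _ h3]
        push_cast
        rw [div_pow]
        have ha' : (0 : ℝ) < a := by exact_mod_cast ha0
        have h4 : (0 : ℝ) < (M.count a).factorial := by exact_mod_cast Nat.factorial_pos _
        have h5 : (0 : ℝ) < zed (M.filter (fun k => k ≠ a)) := by
          exact_mod_cast zed_pos fun k hk => hM4 k (Multiset.mem_filter.1 hk).1
        field_simp
    rw [sum_congr rfl fun M hM => (hterm M hM).2]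
    have hinj : Set.InjOn (fun M : Multiset ℕ => (M.count a, M.filter (fun k => k ≠ a)))
        ((XX N).filter (fun M => ∀ k ∈ M, k ∈ insert a s) : Finset (Multiset ℕ)) := by
      intro M _ M' _ h
      simp only [Prod.mk.injEq] at h
      have h1 : ∀ M : Multiset ℕ, M = Multiset.replicate (M.count a) a + M.filter (fun k => k ≠ a) := by
        intro M
        rw [← Multiset.filter_eq' M a]
        exact (Multiset.filter_add_not _ M).symm
      rw [h1 M, h1 M', h.1, h.2]
    rw [← sum_image (f := fun x : ℕ × Multiset ℕ => (w a / a) ^ x.1 / x.1.factorial *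
      ((x.2.map w).prod / zed x.2)) hinj]
    refine sum_le_sum_of_subset_of_nonneg ?_ ?_
    · intro x hx
      obtain ⟨M, hM, rfl⟩ := mem_image.1 hx
      exact (hterm M hM).1
    · intro x _ _
      have := hw a
      exact mul_nonneg (by positivity) (f_nonneg hw _)

/-- the partial sums -/
theorem sum_hh_le {w : ℕ → ℝ} (hw : ∀ k, 0 ≤ w k) (n : ℕ) :
    ∑ j ∈ range (n + 1), hh w j ≤ Real.exp (∑ k ∈ Icc 1 n, w k / k) := by
  classical
  have h1 : ∑ j ∈ range (n + 1), hh w j = ∑ M ∈ XX n, (M.map w).prod / zed M := by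
    rw [XX, sum_biUnion]
    · rfl
    · intro i _ j _ hij
      rw [Function.onFun, disjoint_left]
      intro M hM hM'
      exact hij ((mem_PP.1 hM).1.symm.trans (mem_PP.1 hM').1)
  have h2 : (XX n).filter (fun M => ∀ k ∈ M, k ∈ Icc 1 n) = XX n := by
    refine filter_true_of_mem fun M hM k hk => ?_
    obtain ⟨h3, h4⟩ := mem_XX.1 hM
    have h5 := Multiset.single_le_sum (fun x _ => Nat.zero_le x) k hk
    exact mem_Icc.2 ⟨h4 k hk, h5.trans h3⟩
  have h3 := sum_supp_le hw n (Icc 1 n) (fun k hk => (mem_Icc.1 hk).1)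
  rw [h2] at h3
  rw [h1]
  exact h3

theorem hh_nonneg {w : ℕ → ℝ} (hw : ∀ k, 0 ≤ w k) (n : ℕ) : 0 ≤ hh w n :=
  sum_nonneg fun M _ => f_nonneg hw M

/-- `h_n ≤ exp (1 - ∑ (1 - w_k) / k)` for weights between `0` and `1` -/
theorem hh_le_exp {w : ℕ → ℝ} (hw : ∀ k, 0 ≤ w k) (hw1 : ∀ k, w k ≤ 1) (n : ℕ) :
    hh w n ≤ Real.exp (1 - ∑ k ∈ Icc 1 n, (1 - w k) / k) := by
  rcases Nat.eq_zero_or_pos n with rfl | hn
  · rw [hh_zero]
    simp
  have h1 := hh_rec w n
  have h2 : ∑ k ∈ Icc 1 n, w k * hh w (n - k) ≤ ∑ j ∈ range n, hh w j := by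
    have h3 : ∑ j ∈ range n, hh w j = ∑ k ∈ Icc 1 n, hh w (n - k) := by
      refine sum_bij' (fun j _ => n - j) (fun k _ => n - k) ?_ ?_ ?_ ?_ ?_
      · intro j hj
        rw [mem_range] at hj
        rw [mem_Icc]
        omega
      · intro k hk
        rw [mem_Icc] at hk
        rw [mem_range]
        omega
      · intro j hj
        rw [mem_range] at hj
        show n - (n - j) = j
        omega
      · intro k hk
        rw [mem_Icc] at hk
        show n - (n - k) = k
        omega
      · intro j hj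
        rw [mem_range] at hj
        congr 1
        omega
    rw [h3]
    refine sum_le_sum fun k _ => ?_
    have := hh_nonneg hw (n - k)
    exact mul_le_of_le_one_left this (hw1 k)
  have h3 : ∑ j ∈ range n, hh w j ≤ Real.exp (∑ k ∈ Icc 1 n, w k / k) := by
    have h4 := sum_hh_le hw (n - 1)
    rw [Nat.sub_add_cancel hn] at h4
    refine h4.trans (Real.exp_le_exp.2 (sum_le_sum_of_subset_of_nonneg ?_ ?_))
    · exact Icc_subset_Icc_right (by omega)
    · intro k _ _
      exact div_nonneg (hw k) (Nat.cast_nonneg _)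
  have h4 : ∑ k ∈ Icc 1 n, w k / (k : ℝ) = (harmonic n : ℝ) - ∑ k ∈ Icc 1 n, (1 - w k) / (k : ℝ) := by
    rw [eq_sub_iff_add_eq, ← sum_add_distrib, harmonic_eq_sum_Icc]
    push_cast
    refine sum_congr rfl fun k _ => ?_
    rw [← add_div]
    simp
  have h5 := harmonic_le_one_add_log n
  have hn' : (0 : ℝ) < n := by exact_mod_cast hn
  have h6 : (n : ℝ) * hh w n ≤ n * Real.exp (1 - ∑ k ∈ Icc 1 n, (1 - w k) / k) := by
    calc (n : ℝ) * hh w n ≤ Real.exp (∑ k ∈ Icc 1 n, w k / k) := by rw [h1]; exact h2.trans h3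
      _ ≤ Real.exp (Real.log n + (1 - ∑ k ∈ Icc 1 n, (1 - w k) / k)) := by
          refine Real.exp_le_exp.2 ?_
          rw [h4]
          linarith
      _ = n * Real.exp (1 - ∑ k ∈ Icc 1 n, (1 - w k) / k) := by
          rw [Real.exp_add, Real.exp_log hn']
  exact le_of_mul_le_mul_left h6 hn'

/-- probabilities of class functions -/
theorem card_filter_eq {α : Type*} [Fintype α] [DecidableEq α] (P : Multiset ℕ → Prop) [DecidablePred P] :
    ((univ.filter (fun g : Perm α => P g.partition.parts)).card : ℝ) =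
      (Fintype.card α).factorial * ∑ M ∈ (PP (Fintype.card α)).filter P, 1 / (zed M : ℝ) := by
  classical
  rw [card_eq_sum_card_fiberwise (f := fun g : Perm α => g.partition.parts) (t := (PP (Fintype.card α)).filter P)
    (fun g hg => ?_)]
  · push_cast
    rw [mul_sum]
    refine sum_congr rfl fun M hM => ?_
    obtain ⟨hM1, hM2⟩ := mem_filter.1 hM
    have h1 := card_perm (α := α) hM1
    have h2 : (univ.filter (fun g : Perm α => P g.partition.parts)).filter (fun g => g.partition.parts = M) =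
        univ.filter (fun g : Perm α => g.partition.parts = M) := by
      ext g
      simp only [mem_filter, mem_univ, true_and]
      constructor
      · exact fun h => h.2
      · intro h
        exact ⟨by rw [h]; exact hM2, h⟩
    rw [h2]
    have h3 : (0 : ℝ) < zed M := by exact_mod_cast zed_pos (mem_PP.1 hM1).2
    rw [mul_one_div, eq_div_iff h3.ne']
    exact_mod_cast h1
  · have h1 := (mem_filter.1 (mem_coe.1 hg)).2
    refine mem_coe.2 (mem_filter.2 ⟨mem_PP.2 ⟨?_, fun k hk => g.partition.parts_pos hk⟩, h1⟩)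
    exact g.partition.parts_sum

/-- NO LONG CYCLES -/
theorem no_long (n m : ℕ) (hm : 1 ≤ m) :
    (Nat.card {g : Equiv.Perm (Fin n) // ∀ k ∈ g.partition.parts, m ≤ k → (2 ∣ k ∨ 3 ∣ k)} : ℝ) *
      (∑ k ∈ (Finset.Icc m n).filter (fun k => ¬ 2 ∣ k ∧ ¬ 3 ∣ k), (1 / (k : ℝ))) ≤ n.factorial := by
  classical
  set w : ℕ → ℝ := fun k => if m ≤ k ∧ ¬ 2 ∣ k ∧ ¬ 3 ∣ k then 0 else 1 with hw
  have hw0 : ∀ k, 0 ≤ w k := by
    intro k
    simp only [hw]
    split_ifs <;> norm_num
  have hw1 : ∀ k, w k ≤ 1 := by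
    intro k
    simp only [hw]
    split_ifs <;> norm_num
  have h1 : (Nat.card {g : Equiv.Perm (Fin n) // ∀ k ∈ g.partition.parts, m ≤ k → (2 ∣ k ∨ 3 ∣ k)} : ℝ) =
      n.factorial * hh w n := by
    rw [Nat.card_eq_fintype_card, Fintype.card_subtype,
      card_filter_eq (α := Fin n) (fun M => ∀ k ∈ M, m ≤ k → (2 ∣ k ∨ 3 ∣ k)), Fintype.card_fin, hh, sum_filter]
    congr 1
    refine sum_congr rfl fun M _ => ?_
    split_ifs with h
    · congr 1
      symm
      refine Multiset.prod_eq_one fun x hx => ?_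
      obtain ⟨k, hk, rfl⟩ := Multiset.mem_map.1 hx
      simp only [hw]
      rw [if_neg]
      rintro ⟨h2, h3, h4⟩
      rcases h k hk h2 with h5 | h5
      · exact h3 h5
      · exact h4 h5
    · push Not at h
      obtain ⟨k, hk, h2, h3, h4⟩ := h
      have h5 : (M.map w).prod = 0 := by
        refine Multiset.prod_eq_zero (Multiset.mem_map.2 ⟨k, hk, ?_⟩)
        simp only [hw]
        rw [if_pos ⟨h2, h3, h4⟩]
      rw [h5, zero_div]
  have h2 : ∑ k ∈ (Finset.Icc m n).filter (fun k => ¬ 2 ∣ k ∧ ¬ 3 ∣ k), (1 / (k : ℝ)) =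
      ∑ k ∈ Icc 1 n, (1 - w k) / k := by
    rw [sum_filter]
    have h3 : Icc m n ⊆ Icc 1 n := Icc_subset_Icc_left hm
    rw [← sum_subset h3]
    · refine sum_congr rfl fun k hk => ?_
      have h4 := (mem_Icc.1 hk).1
      simp only [hw]
      by_cases h5 : ¬ 2 ∣ k ∧ ¬ 3 ∣ k
      · rw [if_pos h5, if_pos ⟨h4, h5⟩, sub_zero]
      · rw [if_neg h5, if_neg fun h => h5 h.2, sub_self, zero_div]
    · intro k hk hk'
      have h4 : ¬ m ≤ k := by
        intro h
        exact hk' (mem_Icc.2 ⟨h, (mem_Icc.1 hk).2⟩)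
      simp only [hw]
      rw [if_neg fun h => h4 h.1, sub_self, zero_div]
  rw [h1, h2, mul_assoc]
  set μ : ℝ := ∑ k ∈ Icc 1 n, (1 - w k) / k with hμ
  have hμ0 : 0 ≤ μ := by
    refine sum_nonneg fun k _ => div_nonneg ?_ (Nat.cast_nonneg _)
    linarith [hw1 k]
  have h3 := hh_le_exp hw0 hw1 n
  rw [← hμ] at h3
  have h4 : hh w n * μ ≤ 1 := by
    have h5 := Real.add_one_le_exp (μ - 1)
    have h6 : Real.exp (1 - μ) * Real.exp (μ - 1) = 1 := by
      rw [← Real.exp_add]
      simp
    calc hh w n * μ ≤ Real.exp (1 - μ) * μ := mul_le_mul_of_nonneg_right h3 hμ0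
      _ ≤ Real.exp (1 - μ) * Real.exp (μ - 1) :=
          mul_le_mul_of_nonneg_left (by linarith) (Real.exp_pos _).le
      _ = 1 := h6
  have h5 : (0 : ℝ) ≤ n.factorial := Nat.cast_nonneg _
  calc (n.factorial : ℝ) * (hh w n * μ) ≤ n.factorial * 1 := mul_le_mul_of_nonneg_left h4 h5
    _ = n.factorial := mul_one _

end Pool.Agent.H89.FE
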