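import Pool.Agent.H89.FE.QGrp
import Pool.Agent.H10.FG.Solv
import Pool.Agent.H88.AB.Quad

/-!
# The first case for quartic fields
-/

set_option autoImplicit false
set_option linter.unusedSectionVars false

open scoped NumberField
open Finset Equiv H85FD IntermediateField
open Pool.Agent.H89.FrobD

namespace Pool.Agent.H89.FE

/-- a Galois field which contains `K` and the cube roots of unity -/
theorem exists_L (K : Type) [Field K] [NumberField K] : ∃ (L : Type) (_ : Field L) (_ : NumberField L)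
    (_ : IsGalois ℚ L), Nonempty (K →ₐ[ℚ] L) ∧ ∃ w : L, w ^ 2 + w + 1 = 0 := by
  obtain ⟨w, hw⟩ : ∃ w : AlgebraicClosure K, w ^ 2 + w + 1 = 0 := by
    have h1 : (Polynomial.X ^ 2 + Polynomial.X + 1 : Polynomial (AlgebraicClosure K)).degree ≠ 0 := by
      have : (Polynomial.X ^ 2 + Polynomial.X + 1 : Polynomial (AlgebraicClosure K)).degree = 2 := by
        compute_degree!
      rw [this]
      norm_num
    obtain ⟨w, hw⟩ := IsAlgClosed.exists_root _ h1
    refine ⟨w, ?_⟩
    simpa [Polynomial.IsRoot] using hw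
  let σ : K →ₐ[ℚ] AlgebraicClosure K := IsScalarTower.toAlgHom ℚ K (AlgebraicClosure K)
  have hint : IsIntegral ℚ w := by
    refine ⟨Polynomial.X ^ 2 + Polynomial.X + 1, ?_, ?_⟩
    · have h1 : (Polynomial.X ^ 2 + Polynomial.X + 1 : Polynomial ℚ) =
          Polynomial.X ^ 2 + (Polynomial.X + 1) := by ring
      rw [h1]
      refine Polynomial.monic_X_pow_add ?_
      have h2 : (Polynomial.X + 1 : Polynomial ℚ).degree = 1 := by
        have := Polynomial.degree_X_add_C (1 : ℚ)
        simpa using this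
      rw [h2]
      norm_num
    · simpa using hw
  let K' : IntermediateField ℚ (AlgebraicClosure K) := σ.fieldRange ⊔ ℚ⟮w⟯
  have hf1 : FiniteDimensional ℚ σ.fieldRange :=
    LinearEquiv.finiteDimensional (AlgEquiv.ofInjectiveField σ).toLinearEquiv
  have hf2 : FiniteDimensional ℚ ℚ⟮w⟯ := IntermediateField.adjoin.finiteDimensional hint
  have hf : FiniteDimensional ℚ K' := IntermediateField.finiteDimensional_sup _ _
  let L := IntermediateField.normalClosure ℚ K' (AlgebraicClosure K)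
  have ha : Algebra.IsAlgebraic ℚ (AlgebraicClosure K) := Algebra.IsAlgebraic.trans ℚ K (AlgebraicClosure K)
  have hac : IsAlgClosure ℚ (AlgebraicClosure K) := ⟨inferInstance, inferInstance⟩
  have hnor : Normal ℚ (AlgebraicClosure K) := IsAlgClosure.normal ℚ (AlgebraicClosure K)
  have hLf : FiniteDimensional ℚ L := normalClosure.is_finiteDimensional ℚ K' (AlgebraicClosure K)
  have hLn : Normal ℚ L := normalClosure.normal ℚ K' (AlgebraicClosure K)
  have hNF : NumberField L := { to_charZero := inferInstance, to_finiteDimensional := hLf }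
  have hle : K' ≤ L := IntermediateField.le_normalClosure K'
  refine ⟨L, inferInstance, hNF, ⟨⟩, ⟨?_⟩, ⟨⟨w, hle ?_⟩, ?_⟩⟩
  · exact σ.codRestrict L.toSubalgebra fun x => hle ((le_sup_left : σ.fieldRange ≤ K') ⟨x, rfl⟩)
  · exact (le_sup_right : ℚ⟮w⟯ ≤ K') (IntermediateField.mem_adjoin_simple_self ℚ w)
  · apply Subtype.ext
    exact hw

section

variable {L : Type} [Field L] [NumberField L] [IsGalois ℚ L] {K : Type} [Field K] [NumberField K]

/-- the permutation representation on the embeddings -/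
def hom (K L : Type) [Field K] [NumberField K] [Field L] [NumberField L] [IsGalois ℚ L] :
    Gal(L/ℚ) →* Perm (K →ₐ[ℚ] L) where
  toFun g := H10FG.actP K g
  map_one' := Equiv.ext fun σ => act_one σ
  map_mul' g h := Equiv.ext fun σ => act_mul g h σ

theorem hom_apply (g : Gal(L/ℚ)) (σ : K →ₐ[ℚ] L) : hom K L g σ = act g σ := rfl

theorem root_cases {w y : L} (hw : w ^ 2 + w + 1 = 0) (hy : y ^ 2 + y + 1 = 0) : y = w ∨ y = -1 - w := by
  have h1 : (y - w) * (y + w + 1) = 0 := by linear_combination hy - hw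
  rcases mul_eq_zero.1 h1 with h | h
  · exact Or.inl (sub_eq_zero.1 h)
  · exact Or.inr (by linear_combination h)

theorem root_map {w : L} (hw : w ^ 2 + w + 1 = 0) (g : Gal(L/ℚ)) : (g w) ^ 2 + g w + 1 = 0 := by
  rw [← map_pow, ← map_add, ← map_one g, ← map_add, hw, map_zero]

theorem root_ne {w : L} (hw : w ^ 2 + w + 1 = 0) : w ≠ -1 - w := by
  intro h
  have h1 : 2 * w = -1 := by linear_combination h
  have h2 : (3 : L) = 0 := by linear_combination 4 * hw - (2 * w + 1) * h1
  norm_num at h2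

theorem W_mul {w : L} (hw : w ^ 2 + w + 1 = 0) (g n : Gal(L/ℚ)) (hn : ¬ n w = w) :
    ((g * n) w = w ↔ ¬ g w = w) := by
  have h1 : n w = -1 - w := (root_cases hw (root_map hw n)).resolve_left hn
  have h2 : (g * n) w = -1 - g w := by
    rw [AlgEquiv.mul_apply, h1, map_sub, map_neg, map_one]
  rw [h2]
  have h3 := root_ne hw
  constructor
  · intro h4 h5
    rw [h5] at h4
    exact h3 h4.symm
  · intro h4
    have h5 := (root_cases hw (root_map hw g)).resolve_left h4
    rw [h5]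
    ring

theorem card_stab_emb (σ : K →ₐ[ℚ] L) :
    Module.finrank ℚ K * Nat.card {g : Gal(L/ℚ) // act g σ = σ} = Nat.card Gal(L/ℚ) := by
  have h1 : Nat.card {g : Gal(L/ℚ) // act g σ = σ} = Nat.card σ.fieldRange.fixingSubgroup := by
    refine Nat.card_congr (Equiv.subtypeEquivRight fun g => ?_)
    rw [act_eq_iff, IntermediateField.mem_fixingSubgroup_iff]
    constructor
    · rintro h _ ⟨x, rfl⟩
      exact h x
    · intro h x
      exact h _ ⟨x, rfl⟩
  have h2 : Module.finrank ℚ σ.fieldRange = Module.finrank ℚ K :=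
    (AlgEquiv.ofInjectiveField σ).toLinearEquiv.finrank_eq.symm
  rw [h1, IsGalois.card_fixingSubgroup_eq_finrank, ← h2, Module.finrank_mul_finrank,
    IsGalois.card_aut_eq_finrank]

theorem exists_move (hw : ∀ v : K, v ^ 2 + v + 1 ≠ 0) {w : L} (hwL : w ^ 2 + w + 1 = 0) (σ : K →ₐ[ℚ] L) :
    ∃ n : Gal(L/ℚ), act n σ = σ ∧ ¬ n w = w := by
  by_contra hcon
  push Not at hcon
  have h1 : w ∈ IntermediateField.fixedField σ.fieldRange.fixingSubgroup := by
    rw [IntermediateField.mem_fixedField_iff]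
    intro g hg
    refine hcon g ?_
    rw [act_eq_iff]
    intro x
    exact (IntermediateField.mem_fixingSubgroup_iff _ _).1 hg _ ⟨x, rfl⟩
  rw [IsGalois.fixedField_fixingSubgroup] at h1
  obtain ⟨v, hv⟩ := h1
  apply hw v
  apply σ.toRingHom.injective
  show σ (v ^ 2 + v + 1) = σ 0
  have hv' : σ v = w := hv
  rw [map_add, map_add, map_pow, map_one, map_zero, hv']
  exact hwL

open Classical in
/-- the case in which the Galois group is not the four group -/
theorem quartic_nonV (h4 : Module.finrank ℚ K = 4) (hw : ∀ v : K, v ^ 2 + v + 1 ≠ 0) (σ₁ : K →ₐ[ℚ] L)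
    {w : L} (hwL : w ^ 2 + w + 1 = 0) (hV : ∃ h₀ : Gal(L/ℚ), ¬ InV (hom K L h₀)) :
    H10FG.LowerDirichlet {p | H10FG.FC K p} (1 / 4) := by
  have iX : Fintype (K →ₐ[ℚ] L) := Fintype.ofFinite _
  have iG : Fintype Gal(L/ℚ) := Fintype.ofFinite _
  have hX : Fintype.card (K →ₐ[ℚ] L) = 4 := by
    rw [← Nat.card_eq_fintype_card, H10FG.card_emb σ₁, h4]
  have h1 := count_quartic (W := fun g : Gal(L/ℚ) => g w = w) (hom K L) hX (fun x => by
    have := card_stab_emb x
    rw [h4, Nat.card_eq_fintype_card (α := Gal(L/ℚ))] at this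
    exact this) (fun g n hn => W_mul hwL g n hn) (fun x => exists_move hw hwL x) hV
  set C : Set Gal(L/ℚ) := {g | (¬ g w = w ∧ ∃ x, hom K L g x = x) ∨
      (g w = w ∧ (∀ x, hom K L g x ≠ x) ∧ ∃ x, hom K L g (hom K L g x) ≠ x)} with hC
  have h2 := H10FG.abs_lower σ₁ C (fun g hg => by
    refine ⟨iX, inferInstance, hom K L g, fun σ => rfl, fun r hr hrw => ?_⟩
    rcases hg with ⟨hg1, hg2⟩ | ⟨hg1, hg2, hg3⟩
    · have h3 : r = 2 := by
        rcases hr with h | h
        · exact absurd ((hrw w hwL).2 h) hg1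
        · exact h
      rw [h3]
      exact blk_two (Or.inr hX) _ hg2
    · have h3 : r = 1 := (hrw w hwL).1 hg1
      rw [h3]
      exact blk_one hX _ hg2 hg3)
  refine h2.mono (fun p _ hp => hp) ?_
  have h3 : Fintype.card Gal(L/ℚ) = Module.finrank ℚ L := by
    rw [← Nat.card_eq_fintype_card, IsGalois.card_aut_eq_finrank]
  have h4 : Nat.card {g : Gal(L/ℚ) // (¬ g w = w ∧ ∃ x, hom K L g x = x) ∨
      (g w = w ∧ (∀ x, hom K L g x ≠ x) ∧ ∃ x, hom K L g (hom K L g x) ≠ x)} = C.ncard := rfl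
  rw [h3] at h1
  have h5 : Module.finrank ℚ L ≤ 4 * C.ncard := h1
  have hpos : (0 : ℝ) < Module.finrank ℚ L := by exact_mod_cast Module.finrank_pos
  rw [le_div_iff₀ hpos]
  have h6 : (Module.finrank ℚ L : ℝ) ≤ 4 * C.ncard := by exact_mod_cast h5
  linarith

/-- the other case: `K` is Galois, and its group has exponent two -/
theorem galois_of_V (σ₁ : K →ₐ[ℚ] L) (hV : ∀ g : Gal(L/ℚ), InV (hom K L g)) :
    IsGalois ℚ K ∧ ∀ g : Gal(K/ℚ), g * g = 1 := by
  have hall : ∀ (g : Gal(L/ℚ)), act g σ₁ = σ₁ → ∀ σ : K →ₐ[ℚ] L, act g σ = σ := by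
    intro g hg σ
    rcases hV g with h | h
    · exact h σ
    · exact absurd hg (h.1 σ₁)
  have hmem : ∀ g : Gal(L/ℚ), g ∈ σ₁.fieldRange.fixingSubgroup ↔ act g σ₁ = σ₁ := by
    intro g
    rw [act_eq_iff, IntermediateField.mem_fixingSubgroup_iff]
    constructor
    · intro h x
      exact h _ ⟨x, rfl⟩
    · rintro h _ ⟨x, rfl⟩
      exact h x
  have hn : (σ₁.fieldRange.fixingSubgroup).Normal := by
    constructor
    intro n hn g
    rw [hmem] at hn ⊢
    rw [act_mul, act_mul, hall n hn, ← act_mul, mul_inv_cancel, act_one]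
  constructor
  · have h1 : IsGalois ℚ (IntermediateField.fixedField (σ₁.fieldRange.fixingSubgroup)) :=
      IsGalois.of_fixedField_normal_subgroup _
    rw [IsGalois.fixedField_fixingSubgroup] at h1
    let e : K ≃ₐ[ℚ] σ₁.fieldRange := AlgEquiv.ofInjectiveField σ₁
    exact IsGalois.of_algEquiv e.symm
  · intro g
    obtain ⟨ρ, hρ⟩ := exists_gal σ₁ (σ₁.comp (g : K →ₐ[ℚ] K))
    have h1 : act ρ (act ρ σ₁) = σ₁ := by
      rcases hV ρ with h | h
      · have h2 : act ρ σ₁ = σ₁ := h σ₁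
        rw [h2, h2]
      · exact h.2 σ₁
    ext x
    apply σ₁.injective
    have h2 : act ρ (act ρ σ₁) (x : K) = σ₁ (g (g x)) := by
      have h3 : ∀ y : K, ρ (σ₁ y) = σ₁ (g y) := fun y => DFunLike.congr_fun hρ y
      show ρ (ρ (σ₁ x)) = σ₁ (g (g x))
      rw [h3, h3]
    rw [h1] at h2
    exact h2.symm

/-- embeddings of a Galois field -/
theorem exists_aut [IsGalois ℚ K] (σ σ' : K →ₐ[ℚ] L) : ∃ g : Gal(K/ℚ), σ' = σ.comp (g : K →ₐ[ℚ] K) := by
  classical
  have iX : Fintype (K →ₐ[ℚ] L) := Fintype.ofFinite _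
  have iG : Fintype Gal(K/ℚ) := Fintype.ofFinite _
  have hinj : Function.Injective (fun g : Gal(K/ℚ) => σ.comp (g : K →ₐ[ℚ] K)) := by
    intro g h hgh
    ext x
    apply σ.injective
    exact DFunLike.congr_fun hgh x
  have hcard : Fintype.card Gal(K/ℚ) = Fintype.card (K →ₐ[ℚ] L) := by
    rw [← Nat.card_eq_fintype_card, ← Nat.card_eq_fintype_card, H10FG.card_emb σ, IsGalois.card_aut_eq_finrank]
  obtain ⟨g, hg⟩ := ((Fintype.bijective_iff_injective_and_card _).2 ⟨hinj, hcard⟩).2 σ'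
  exact ⟨g, hg.symm⟩

end

section biquad

variable {K : Type} [Field K] [NumberField K] [IsGalois ℚ K]

/-- a real quadratic subfield of a biquadratic field -/
theorem exists_real (h4 : Module.finrank ℚ K = 4) (hexp : ∀ g : Gal(K/ℚ), g * g = 1) :
    ∃ s : Gal(K/ℚ), s ≠ 1 ∧
      Module.finrank ℚ (IntermediateField.fixedField (Subgroup.zpowers s)) = 2 ∧
      ∀ φ : IntermediateField.fixedField (Subgroup.zpowers s) →+* ℂ, (starRingEnd ℂ).comp φ = φ := by
  have hcomm : ∀ g h : Gal(K/ℚ), g * h = h * g := by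
    intro g h
    have h1 : (g * h) * (g * h) = 1 := hexp _
    have h2 : g⁻¹ = g := inv_eq_of_mul_eq_one_right (hexp g)
    have h3 : h⁻¹ = h := inv_eq_of_mul_eq_one_right (hexp h)
    have h4 : (g * h)⁻¹ = g * h := inv_eq_of_mul_eq_one_right h1
    rw [mul_inv_rev, h2, h3] at h4
    exact h4.symm
  obtain ⟨φ₀⟩ : Nonempty (K →+* ℂ) := inferInstance
  obtain ⟨c, hc⟩ : ∃ c : Gal(K/ℚ), ∀ x : K, (starRingEnd ℂ) (φ₀ x) = φ₀ (c x) := by
    obtain ⟨σ, hσ⟩ := NumberField.ComplexEmbedding.exists_comp_symm_eq_of_comp_eq (k := ℚ) φ₀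
      ((starRingEnd ℂ).comp φ₀) (Subsingleton.elim _ _)
    refine ⟨σ.symm, fun x => ?_⟩
    exact (DFunLike.congr_fun hσ x).symm
  have hcard : Nat.card Gal(K/ℚ) = 4 := by rw [IsGalois.card_aut_eq_finrank, h4]
  obtain ⟨s, hs1, hcs⟩ : ∃ s : Gal(K/ℚ), s ≠ 1 ∧ c ∈ Subgroup.zpowers s := by
    by_cases h : c = 1
    · have : Nontrivial Gal(K/ℚ) := by
        rw [← Finite.one_lt_card_iff_nontrivial, hcard]
        norm_num
      obtain ⟨s, hs⟩ := exists_ne (1 : Gal(K/ℚ))
      exact ⟨s, hs, by rw [h]; exact Subgroup.one_mem _⟩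
    · exact ⟨c, h, Subgroup.mem_zpowers c⟩
  have hord : Nat.card (Subgroup.zpowers s) = 2 := by
    rw [Nat.card_zpowers]
    exact orderOf_eq_prime (by rw [pow_two]; exact hexp s) hs1
  refine ⟨s, hs1, ?_, ?_⟩
  · have h1 := IntermediateField.finrank_fixedField_eq_card (Subgroup.zpowers s)
    have h2 := Module.finrank_mul_finrank ℚ (IntermediateField.fixedField (Subgroup.zpowers s)) K
    rw [h1, hord, h4] at h2
    omega
  · intro φ
    have hlift := NumberField.ComplexEmbedding.lift_comp_algebraMap (K := K) φ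
    set Ψ := NumberField.ComplexEmbedding.lift K φ with hΨ
    obtain ⟨σ, hσ⟩ := NumberField.ComplexEmbedding.exists_comp_symm_eq_of_comp_eq (k := ℚ) φ₀ Ψ
      (Subsingleton.elim _ _)
    refine RingHom.ext fun x => ?_
    have h1 : ∀ y : K, Ψ y = φ₀ (σ.symm y) := fun y => (DFunLike.congr_fun hσ y).symm
    have h2 : φ x = Ψ (x : K) := (DFunLike.congr_fun hlift x).symm
    have hx : c (x : K) = x := (IntermediateField.mem_fixedField_iff _ _).1 x.2 c hcs
    show (starRingEnd ℂ) (φ x) = φ x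
    rw [h2, h1, hc]
    have h3 : c (σ.symm (x : K)) = σ.symm (c (x : K)) := by
      have h4 := hcomm c σ.symm
      exact DFunLike.congr_fun h4 (x : K)
    rw [h3, hx]

theorem zpowers_two {G : Type*} [Group G] {s g : G} (hs : s * s = 1) (hg : g ∈ Subgroup.zpowers s) :
    g = 1 ∨ g = s := by
  obtain ⟨k, rfl⟩ := Subgroup.mem_zpowers_iff.1 hg
  rcases Int.even_or_odd k with ⟨j, rfl⟩ | ⟨j, rfl⟩
  · left
    rw [← two_mul, zpow_mul, zpow_two, hs, one_zpow]
  · right
    rw [zpow_add, zpow_mul, zpow_two, hs, one_zpow, one_mul, zpow_one]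

variable {L : Type} [Field L] [NumberField L] [IsGalois ℚ L]

open Classical in
theorem biquad_lower (h4 : Module.finrank ℚ K = 4) (hexp : ∀ g : Gal(K/ℚ), g * g = 1)
    (hw : ∀ v : K, v ^ 2 + v + 1 ≠ 0) (σ₁ : K →ₐ[ℚ] L) {w : L} (hwL : w ^ 2 + w + 1 = 0) :
    H10FG.LowerDirichlet {p | H10FG.FC K p} (1 / 4) := by
  obtain ⟨s, hs1, hF2, hreal⟩ := exists_real h4 hexp
  have iG : Fintype Gal(L/ℚ) := Fintype.ofFinite _
  set C : Set Gal(L/ℚ) := {g | (act g σ₁ = σ₁ ∧ ¬ g w = w) ∨
    (act g σ₁ = σ₁.comp (s : K →ₐ[ℚ] K) ∧ g w = w)} with hC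
  have hne : σ₁ ≠ σ₁.comp (s : K →ₐ[ℚ] K) := by
    intro h
    apply hs1
    ext x
    apply σ₁.injective
    exact (DFunLike.congr_fun h x).symm
  -- the count
  have hcount : Module.finrank ℚ L = 4 * C.ncard := by
    obtain ⟨n, hn1, hn2⟩ := exists_move hw hwL σ₁
    have h1 := (half (W := fun g : Gal(L/ℚ) => g w = w) (fun g n hn => W_mul hwL g n hn)
      (fun g => act g σ₁ = σ₁) n hn2 (fun g => by
        show act (g * n) σ₁ = σ₁ ↔ _
        rw [act_mul, hn1])).1
    have h2 := (half (W := fun g : Gal(L/ℚ) => g w = w) (fun g n hn => W_mul hwL g n hn)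
      (fun g => act g σ₁ = σ₁.comp (s : K →ₐ[ℚ] K)) n hn2 (fun g => by
        show act (g * n) σ₁ = _ ↔ _
        rw [act_mul, hn1])).2
    have h3 := card_stab_emb σ₁
    rw [h4, IsGalois.card_aut_eq_finrank, Nat.card_eq_fintype_card, Fintype.card_subtype] at h3
    obtain ⟨ρ, hρ⟩ := exists_gal σ₁ (σ₁.comp (s : K →ₐ[ℚ] K))
    have h5 : (univ.filter (fun g : Gal(L/ℚ) => act g σ₁ = σ₁)).card =
        (univ.filter (fun g : Gal(L/ℚ) => act g σ₁ = σ₁.comp (s : K →ₐ[ℚ] K))).card := by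
      refine card_bij' (fun g _ => ρ * g) (fun g _ => ρ⁻¹ * g) ?_ ?_ ?_ ?_
      · intro g hg
        have h6 := (mem_filter.1 hg).2
        refine mem_filter.2 ⟨mem_univ _, ?_⟩
        rw [act_mul, h6, hρ]
      · intro g hg
        have h6 := (mem_filter.1 hg).2
        refine mem_filter.2 ⟨mem_univ _, ?_⟩
        rw [act_mul, h6, ← hρ, ← act_mul, inv_mul_cancel, act_one]
      · intro g _
        rw [inv_mul_cancel_left]
      · intro g _
        rw [mul_inv_cancel_left]
    have h6 : C.ncard = (univ.filter (fun g : Gal(L/ℚ) => act g σ₁ = σ₁ ∧ ¬ g w = w)).card +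
        (univ.filter (fun g : Gal(L/ℚ) => act g σ₁ = σ₁.comp (s : K →ₐ[ℚ] K) ∧ g w = w)).card := by
      rw [← card_union_of_disjoint]
      · rw [← Set.ncard_coe_finset]
        congr 1
        ext g
        simp only [hC, Set.mem_setOf_eq, coe_union, coe_filter, mem_univ, true_and, Set.mem_union]
      · rw [disjoint_left]
        intro g hg hg'
        exact (mem_filter.1 hg).2.2 (mem_filter.1 hg').2.2
    omega
  -- the subfield
  set F : IntermediateField ℚ K := IntermediateField.fixedField (Subgroup.zpowers s) with hF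
  have hsF : ∀ x : F, s (x : K) = x := fun x =>
    (IntermediateField.mem_fixedField_iff _ _).1 x.2 s (Subgroup.mem_zpowers s)
  let τ : F →ₐ[ℚ] L := σ₁.comp F.val
  have hτ : ∀ x : F, τ x = σ₁ (x : K) := fun x => rfl
  let e₁ : Emb K τ := ⟨σ₁, fun x => rfl⟩
  let e₂ : Emb K τ := ⟨σ₁.comp (s : K →ₐ[ℚ] K), fun x => by
    show σ₁ (s (x : K)) = σ₁ (x : K)
    rw [hsF]⟩
  have he : e₁ ≠ e₂ := fun h => hne (congrArg Subtype.val h)
  have hall : ∀ σ : Emb K τ, σ = e₁ ∨ σ = e₂ := by
    intro σ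
    obtain ⟨g, hg⟩ := exists_aut σ₁ σ.1
    have h1 : g ∈ F.fixingSubgroup := by
      rw [IntermediateField.mem_fixingSubgroup_iff]
      intro x hx
      apply σ₁.injective
      have h2 := σ.2 ⟨x, hx⟩
      rw [hg] at h2
      exact h2
    rw [hF, IntermediateField.fixingSubgroup_fixedField] at h1
    rcases zpowers_two (hexp s) h1 with h | h
    · left
      apply Subtype.ext
      rw [hg, h]
      rfl
    · right
      apply Subtype.ext
      rw [hg, h]
  have iE : Fintype (Emb K τ) := Fintype.ofFinite _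
  have hE2 : Fintype.card (Emb K τ) = 2 := by
    have h1 : (univ : Finset (Emb K τ)) = {e₁, e₂} := by
      ext σ
      simp only [mem_univ, mem_insert, mem_singleton, true_iff]
      exact hall σ
    rw [← card_univ, h1, card_pair he]
  have hfixτ : ∀ g ∈ C, act g τ = τ := by
    intro g hg
    refine AlgHom.ext fun x => ?_
    rcases hg with ⟨h, _⟩ | ⟨h, _⟩
    · exact DFunLike.congr_fun h (x : K)
    · have h1 : g (σ₁ (x : K)) = σ₁ (s (x : K)) := DFunLike.congr_fun h (x : K)
      show g (σ₁ (x : K)) = σ₁ (x : K)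
      rw [h1, hsF]
  have h2 := H10FG.blocked_lower σ₁ C (fun g hg => by
    refine ⟨F, ?_, hreal, τ, iE, inferInstance, ?_⟩
    · obtain ⟨f, hf, ι⟩ := H88Q.exists_emb_quad (K := F) hF2
      exact ⟨f, by omega, ι⟩
    have hk : Function.minimalPeriod (act g) τ = 1 :=
      Function.minimalPeriod_eq_one_iff_isFixedPt.2 (hfixτ g hg)
    rw [hk, pow_one]
    have hfg : ∀ x : F, g (τ x) = τ x := fun x => DFunLike.congr_fun (hfixτ g hg) x
    have hfg' : ∀ x : F, g⁻¹ (τ x) = τ x := by
      intro x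
      have h3 : g⁻¹ (g (τ x)) = τ x := by
        rw [← AlgEquiv.mul_apply, inv_mul_cancel]
        rfl
      rw [hfg] at h3
      exact h3
    let π : Perm (Emb K τ) :=
      { toFun := fun σ => ⟨act g σ.1, fun x => by
          show g (σ.1 (algebraMap F K x)) = τ x
          rw [σ.2, hfg]⟩
        invFun := fun σ => ⟨act g⁻¹ σ.1, fun x => by
          show g⁻¹ (σ.1 (algebraMap F K x)) = τ x
          rw [σ.2, hfg']⟩
        left_inv := fun σ => by
          apply Subtype.ext
          show act g⁻¹ (act g σ.1) = σ.1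
          rw [← act_mul, inv_mul_cancel, act_one]
        right_inv := fun σ => by
          apply Subtype.ext
          show act g (act g⁻¹ σ.1) = σ.1
          rw [← act_mul, mul_inv_cancel, act_one] }
    refine ⟨π, fun σ => rfl, fun r hr hrw => ?_⟩
    rcases hg with ⟨hg1, hg2⟩ | ⟨hg1, hg2⟩
    · have h3 : r = 2 := by
        rcases hr with h | h
        · exact absurd ((hrw w hwL).2 h) hg2
        · exact h
      rw [h3]
      refine blk_two (Or.inl hE2) π ⟨e₁, ?_⟩
      apply Subtype.ext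
      exact hg1
    · have h3 : r = 1 := (hrw w hwL).1 hg2
      rw [h3]
      have h5 : π e₁ = e₂ := by
        apply Subtype.ext
        exact hg1
      refine blk_one' hE2 π fun σ hσ => ?_
      rcases hall σ with h | h
      · rw [h, h5] at hσ
        exact he hσ.symm
      · rw [h, ← h5] at hσ
        exact he ((π.injective hσ).symm.trans h5).symm.symm)
  refine h2.mono (fun p _ hp => hp) ?_
  have hpos : (0 : ℝ) < Module.finrank ℚ L := by exact_mod_cast Module.finrank_pos
  rw [le_div_iff₀ hpos]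
  have h6 : (Module.finrank ℚ L : ℝ) = 4 * C.ncard := by exact_mod_cast hcount
  linarith

end biquad

/-- QUARTIC FIELDS -/
theorem quartic_lower {K : Type} [Field K] [NumberField K] (h4 : Module.finrank ℚ K = 4)
    (hw : ∀ w : K, w ^ 2 + w + 1 ≠ 0) : H10FG.LowerDirichlet {p | H10FG.FC K p} (1 / 4) := by
  obtain ⟨L, _, _, _, ⟨σ₁⟩, w, hwL⟩ := exists_L K
  by_cases hV : ∃ h₀ : Gal(L/ℚ), ¬ InV (hom K L h₀)
  · exact quartic_nonV h4 hw σ₁ hwL hV
  · push Not at hV
    obtain ⟨hG, hexp⟩ := galois_of_V σ₁ hV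
    exact biquad_lower h4 hexp hw σ₁ hwL

end Pool.Agent.H89.FE
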