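import Pool.Agent.H93.FD.LongCount
import Pool.Agent.H85.FD.Parts

/-!
# Fields of large degree with symmetric or alternating Galois group: the count
-/

set_option autoImplicit false
set_option linter.unusedSectionVars false

open Finset Equiv H93FD H85FD

namespace Pool.Agent.H89.FE

/-- the elements of the Galois group whose cycle type on the embeddings of `K` does not split -/
def CC (K L : Type) [Field K] [NumberField K] [Field L] [NumberField L] [IsGalois ℚ L] : Set Gal(L/ℚ) :=
  {g | ∀ (_ : Fintype (K →ₐ[ℚ] L)) (_ : DecidableEq (K →ₐ[ℚ] L)),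
    ¬ SplitsN 1 (compPerm (K := K) g).partition.parts ∧ ¬ SplitsN 2 (compPerm (K := K) g).partition.parts}

theorem card_CC
    (hfew : ∀ δ : ℝ, 0 < δ → ∃ d₀ : ℕ, ∀ (α : Type) [Fintype α] [DecidableEq α], d₀ ≤ Fintype.card α →
      (Nat.card {g : Perm α // SplitsN 1 g.partition.parts ∨ SplitsN 2 g.partition.parts} : ℝ) ≤
        δ * (Fintype.card α).factorial) (δ : ℝ) (hδ : 0 < δ) :
    ∃ d₀ : ℕ, 3 ≤ d₀ ∧ ∀ (K L : Type) [Field K] [NumberField K] [Field L] [NumberField L] [IsGalois ℚ L],
      (⨆ s : K →ₐ[ℚ] L, s.fieldRange) = ⊤ → (Module.finrank ℚ K).factorial ≤ 2 * Module.finrank ℚ L →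
      d₀ ≤ Module.finrank ℚ K → (1 - δ) * (Module.finrank ℚ L : ℝ) ≤ (CC K L).ncard := by
  classical
  obtain ⟨d₁, hd₁⟩ := hfew (δ / 2) (by positivity)
  refine ⟨max d₁ 3, le_max_right _ _, ?_⟩
  intro K L _ _ _ _ _ hgen hL hd
  have h3 : 3 ≤ Module.finrank ℚ K := (le_max_right _ _).trans hd
  have hcard := card_emb_of_half h3 hgen hL
  let iF : Fintype (K →ₐ[ℚ] L) := Fintype.ofFinite _
  have hcard' : Fintype.card (K →ₐ[ℚ] L) = Module.finrank ℚ K := by
    rw [← Nat.card_eq_fintype_card]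
    exact hcard
  have h1 := hd₁ (K →ₐ[ℚ] L) (by rw [hcard']; exact (le_max_left _ _).trans hd)
  have hf : (Fintype.card (K →ₐ[ℚ] L)).factorial = (Module.finrank ℚ K).factorial := by rw [hcard']
  rw [hf] at h1
  have hinj : Function.Injective (compPerm : Gal(L/ℚ) → Perm (K →ₐ[ℚ] L)) := compPerm_injective hgen
  have h2 : Nat.card {g : Gal(L/ℚ) // SplitsN 1 (compPerm (K := K) g).partition.parts ∨
      SplitsN 2 (compPerm (K := K) g).partition.parts} ≤
      Nat.card {g : Perm (K →ₐ[ℚ] L) // SplitsN 1 g.partition.parts ∨ SplitsN 2 g.partition.parts} :=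
    Nat.card_le_card_of_injective (Subtype.map compPerm fun g hg => hg) (Subtype.map_injective _ hinj)
  have hCC : CC K L = {g : Gal(L/ℚ) | SplitsN 1 (compPerm (K := K) g).partition.parts ∨
      SplitsN 2 (compPerm (K := K) g).partition.parts}ᶜ := by
    ext g
    simp only [CC, Set.mem_setOf_eq, Set.mem_compl_iff, not_or]
    constructor
    · intro h
      exact h _ _
    · intro h i1 i2
      have e1 : i1 = iF := Subsingleton.elim _ _
      subst e1
      have e2 : i2 = (fun a b => Classical.propDecidable (a = b)) := Subsingleton.elim _ _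
      subst e2
      exact h
  have h4 : (CC K L).ncard + {g : Gal(L/ℚ) | SplitsN 1 (compPerm (K := K) g).partition.parts ∨
      SplitsN 2 (compPerm (K := K) g).partition.parts}.ncard = Module.finrank ℚ L := by
    rw [hCC, add_comm, Set.ncard_add_ncard_compl, IsGalois.card_aut_eq_finrank]
  have h5 : {g : Gal(L/ℚ) | SplitsN 1 (compPerm (K := K) g).partition.parts ∨
      SplitsN 2 (compPerm (K := K) g).partition.parts}.ncard =
      Nat.card {g : Gal(L/ℚ) // SplitsN 1 (compPerm (K := K) g).partition.parts ∨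
      SplitsN 2 (compPerm (K := K) g).partition.parts} := rfl
  rw [h5] at h4
  have h6 : ((CC K L).ncard : ℝ) + Nat.card {g : Gal(L/ℚ) // SplitsN 1 (compPerm (K := K) g).partition.parts ∨
      SplitsN 2 (compPerm (K := K) g).partition.parts} = Module.finrank ℚ L := by exact_mod_cast h4
  have h7 : (Nat.card {g : Gal(L/ℚ) // SplitsN 1 (compPerm (K := K) g).partition.parts ∨
      SplitsN 2 (compPerm (K := K) g).partition.parts} : ℝ) ≤ Nat.card {g : Perm (K →ₐ[ℚ] L) //
      SplitsN 1 g.partition.parts ∨ SplitsN 2 g.partition.parts} := by exact_mod_cast h2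
  have h8 : ((Module.finrank ℚ K).factorial : ℝ) ≤ 2 * Module.finrank ℚ L := by exact_mod_cast hL
  have h9 : δ / 2 * ((Module.finrank ℚ K).factorial : ℝ) ≤ δ / 2 * (2 * Module.finrank ℚ L) :=
    mul_le_mul_of_nonneg_left h8 (by positivity)
  linarith

/-- the type of the permutation -/
theorem not_splits {K L : Type} [Field K] [NumberField K] [Field L] [NumberField L] [IsGalois ℚ L]
    {g : Gal(L/ℚ)} (hg : g ∈ CC K L) (i1 : Fintype (K →ₐ[ℚ] L)) (i2 : DecidableEq (K →ₐ[ℚ] L))
    (π : Perm (K →ₐ[ℚ] L)) (hπ : ∀ σ, π σ = (g : L →ₐ[ℚ] L).comp σ) (r : ℕ) (hr : r = 1 ∨ r = 2) :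
    ¬ SplitsN r π.partition.parts := by
  have h1 : π = compPerm g := Equiv.ext hπ
  subst h1
  rcases hr with rfl | rfl
  · exact (hg i1 i2).1
  · exact (hg i1 i2).2

end Pool.Agent.H89.FE
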