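import Pool.Agent.H89.FE.Field
import Pool.Agent.H29.FE.Gen
import Pool.Agent.H10.FG.Main

/-!
# The first case for fields of large degree with symmetric or alternating Galois group
-/

set_option autoImplicit false
set_option linter.unusedSectionVars false

open Finset Equiv H93FD H85FD

namespace Pool.Agent.H89.FE

/-- CLAUSE (E) -/
theorem large_degree (δ : ℝ) (hδ : 0 < δ) :
    ∃ d₀ : ℕ, ∀ (K L : Type) [Field K] [NumberField K] [Field L] [NumberField L] [IsGalois ℚ L],
      (⨆ s : K →ₐ[ℚ] L, s.fieldRange) = ⊤ → (Module.finrank ℚ K).factorial ≤ 2 * Module.finrank ℚ L →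
      d₀ ≤ Module.finrank ℚ K → H10FG.LowerDirichlet {p | H10FG.FC K p} (1 - δ) := by
  obtain ⟨d₀, hd₀, h⟩ := card_CC (fun δ hδ => H29FE.few_split hδ) δ hδ
  refine ⟨d₀, ?_⟩
  intro K L _ _ _ _ _ hgen hL hd
  have h3 : 3 ≤ Module.finrank ℚ K := hd₀.trans hd
  have h1 := h K L hgen hL hd
  have hcard := card_emb_of_half h3 hgen hL
  have hne : Nonempty (K →ₐ[ℚ] L) := by
    have h4 : 0 < Nat.card (K →ₐ[ℚ] L) := by omega
    exact (Nat.card_pos_iff.1 h4).1
  obtain ⟨σ₁⟩ := hne
  have h2 := H10FG.abs_lower σ₁ (CC K L) (fun g hg => by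
    classical
    have iF : Fintype (K →ₐ[ℚ] L) := Fintype.ofFinite _
    exact ⟨iF, inferInstance, compPerm g, fun σ => rfl, fun r hr _ =>
      not_splits hg _ _ (compPerm g) (fun σ => rfl) r hr⟩)
  refine h2.mono (fun p _ hp => hp) ?_
  have hpos : (0 : ℝ) < Module.finrank ℚ L := by exact_mod_cast Module.finrank_pos
  rw [le_div_iff₀ hpos]
  exact h1

end Pool.Agent.H89.FE
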