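import Pool.Agent.H10.FG.Main

/-!
# Quartic fields: the group theory
-/

set_option autoImplicit false
set_option linter.unusedSectionVars false

open Finset Equiv H85FD

namespace Pool.Agent.H89.FE

section parts

theorem parts_three_sum {A : Multiset ℕ} (h : Parts id 3 A) : ∃ a : ℕ, A.sum = 3 * a := by
  obtain ⟨F, hF, h1⟩ := h
  rw [Fin.sum_univ_three] at hF
  have h2 := h1 0 1
  have h3 := h1 0 2
  simp only [Multiset.map_id] at h2 h3
  refine ⟨(F 0).sum, ?_⟩
  rw [hF, Multiset.sum_add, Multiset.sum_add]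
  omega

theorem parts_two {B : Multiset ℕ} (h : Parts id 2 B) : ∃ B₁ B₂ : Multiset ℕ, B = B₁ + B₂ ∧ B₁.sum = B₂.sum := by
  obtain ⟨F, hF, h1⟩ := h
  rw [Fin.sum_univ_two] at hF
  have h2 := h1 0 1
  simp only [Multiset.map_id] at h2
  exact ⟨F 0, F 1, hF, h2⟩

/-- a part `1`, total `2` or `4`: no splitting for `r = 2` -/
theorem not_splits_two {M : Multiset ℕ} (hpos : ∀ k ∈ M, 0 < k) (h1 : 1 ∈ M) (hs : M.sum = 2 ∨ M.sum = 4) :
    ¬ SplitsN 2 M := by
  rintro ⟨A, B, C, hM, hA, hB, hB3, hC, -⟩
  have hA1 : 1 ∈ A := by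
    rw [hM, Multiset.mem_add, Multiset.mem_add] at h1
    rcases h1 with (h | h) | h
    · exact h
    · have := hB3 rfl 1 h
      omega
    · have := hC 1 h
      rw [Nat.even_iff] at this
      omega
  obtain ⟨a, ha⟩ := parts_three_sum hA
  have h2 := Multiset.single_le_sum (fun x _ => Nat.zero_le x) 1 hA1
  have h3 : M.sum = A.sum + B.sum + C.sum := by rw [hM, Multiset.sum_add, Multiset.sum_add]
  -- the rest has sum one
  have h4 : B.sum + C.sum = 1 := by
    rcases hs with h | h <;> omega
  have hB0 : B.sum = 0 ∨ B.sum = 1 := by omega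
  have key : ∀ N : Multiset ℕ, (∀ k ∈ N, k ∈ M) → N.sum = 1 → 1 ∈ N := by
    intro N hN hN1
    have hne : N ≠ 0 := by
      intro h
      rw [h] at hN1
      simp at hN1
    obtain ⟨k, hk⟩ := Multiset.exists_mem_of_ne_zero hne
    have h5 := Multiset.single_le_sum (fun x _ => Nat.zero_le x) k hk
    have h6 := hpos k (hN k hk)
    have : k = 1 := by omega
    rwa [this] at hk
  rcases hB0 with h | h
  · have h5 := key C (fun k hk => by rw [hM]; exact Multiset.mem_add.2 (Or.inr hk)) (by omega)
    have := hC 1 h5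
    rw [Nat.even_iff] at this
    omega
  · have h5 := key B (fun k hk => by
      rw [hM]; exact Multiset.mem_add.2 (Or.inl (Multiset.mem_add.2 (Or.inr hk)))) h
    have := hB3 rfl 1 h5
    omega

/-- no part `1`, total `4`, not all parts `2`: no splitting for `r = 1` -/
theorem not_splits_one {M : Multiset ℕ} (hpos : ∀ k ∈ M, 0 < k) (h1 : 1 ∉ M) (hs : M.sum = 4)
    (h2 : ∃ k ∈ M, k ≠ 2) : ¬ SplitsN 1 M := by
  rintro ⟨A, B, C, hM, hA, hB, -, -, hC⟩
  have hC0 := hC (by norm_num)
  rw [hC0, add_zero] at hM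
  obtain ⟨a, ha⟩ := parts_three_sum hA
  obtain ⟨B₁, B₂, hB', hB12⟩ := parts_two hB
  have h3 : M.sum = A.sum + (B₁.sum + B₂.sum) := by rw [hM, Multiset.sum_add, hB', Multiset.sum_add]
  have ha0 : a = 0 := by omega
  obtain ⟨k, hk, hk2⟩ := h2
  have hk0 := hpos k hk
  have hk1 : k ≠ 1 := fun h => h1 (h ▸ hk)
  have hk' := hk
  rw [hM, hB', Multiset.mem_add, Multiset.mem_add] at hk'
  rcases hk' with h | h | h
  · have := Multiset.single_le_sum (fun x _ => Nat.zero_le x) k h
    omega
  · have := Multiset.single_le_sum (fun x _ => Nat.zero_le x) k h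
    omega
  · have := Multiset.single_le_sum (fun x _ => Nat.zero_le x) k h
    omega

/-- no part `1`, total `2`: no splitting for `r = 1` -/
theorem not_splits_one' {M : Multiset ℕ} (hpos : ∀ k ∈ M, 0 < k) (h1 : 1 ∉ M) (hs : M.sum = 2) :
    ¬ SplitsN 1 M := by
  rintro ⟨A, B, C, hM, hA, hB, -, -, hC⟩
  have hC0 := hC (by norm_num)
  rw [hC0, add_zero] at hM
  obtain ⟨a, ha⟩ := parts_three_sum hA
  obtain ⟨B₁, B₂, hB', hB12⟩ := parts_two hB
  have h3 : M.sum = A.sum + (B₁.sum + B₂.sum) := by rw [hM, Multiset.sum_add, hB', Multiset.sum_add]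
  have hB1 : B₁.sum = 1 := by omega
  have hne : B₁ ≠ 0 := by
    intro h
    rw [h] at hB1
    simp at hB1
  obtain ⟨k, hk⟩ := Multiset.exists_mem_of_ne_zero hne
  have hkM : k ∈ M := by
    rw [hM, hB']
    exact Multiset.mem_add.2 (Or.inr (Multiset.mem_add.2 (Or.inl hk)))
  have h5 := Multiset.single_le_sum (fun x _ => Nat.zero_le x) k hk
  have h6 := hpos k hkM
  have : k = 1 := by omega
  rw [this] at hkM
  exact h1 hkM

end parts

section perm

variable {X : Type*} [Fintype X] [DecidableEq X]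

theorem one_mem_parts (π : Perm X) : 1 ∈ π.partition.parts ↔ ∃ x, π x = x := by
  have h1 := Pool.Agent.H89.FrobD.perm_count π 1 one_pos
  rw [one_mul] at h1
  rw [← Multiset.count_pos, h1, Finset.card_pos]
  constructor
  · rintro ⟨x, hx⟩
    exact ⟨x, Function.minimalPeriod_eq_one_iff_isFixedPt.1 (mem_filter.1 hx).2⟩
  · rintro ⟨x, hx⟩
    exact ⟨x, mem_filter.2 ⟨mem_univ _, Function.minimalPeriod_eq_one_iff_isFixedPt.2 hx⟩⟩

theorem blk_two (hX : Fintype.card X = 2 ∨ Fintype.card X = 4) (π : Perm X) (h : ∃ x, π x = x) :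
    ¬ SplitsN 2 π.partition.parts := by
  refine not_splits_two (fun k hk => π.partition.parts_pos hk) ((one_mem_parts π).2 h) ?_
  rw [π.partition.parts_sum]
  exact hX

theorem blk_one (hX : Fintype.card X = 4) (π : Perm X) (h : ∀ x, π x ≠ x) (h2 : ∃ x, π (π x) ≠ x) :
    ¬ SplitsN 1 π.partition.parts := by
  refine not_splits_one (fun k hk => π.partition.parts_pos hk) ?_ ?_ ?_
  · rw [one_mem_parts]
    push Not
    exact h
  · rw [π.partition.parts_sum]
    exact hX
  · obtain ⟨x, hx⟩ := h2
    refine ⟨Function.minimalPeriod π x, H10FG.mem_parts π x, fun h3 => hx ?_⟩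
    have h4 := Function.isPeriodicPt_minimalPeriod π x
    rw [h3] at h4
    exact h4

theorem blk_one' (hX : Fintype.card X = 2) (π : Perm X) (h : ∀ x, π x ≠ x) :
    ¬ SplitsN 1 π.partition.parts := by
  refine not_splits_one' (fun k hk => π.partition.parts_pos hk) ?_ ?_
  · rw [one_mem_parts]
    push Not
    exact h
  · rw [π.partition.parts_sum]
    exact hX

/-- the identity and the products of two disjoint transpositions (on four points) -/
def InV {Y : Type*} (π : Perm Y) : Prop := (∀ x, π x = x) ∨ ((∀ x, π x ≠ x) ∧ ∀ x, π (π x) = x)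

instance : DecidablePred (InV : Perm (Fin 4) → Prop) := fun π => by unfold InV; infer_instance

theorem inV_fin4 : ∀ p q : Perm (Fin 4), InV p → ¬ InV q → ¬ InV (p * q) := by decide +kernel

theorem inV_conj {Y Z : Type*} (e : Y ≃ Z) (π : Perm Y) : InV (e.permCongr π) ↔ InV π := by
  have h1 : ∀ z, (e.permCongr π) z = e (π (e.symm z)) := fun z => rfl
  constructor
  · rintro (h | ⟨h, h'⟩)
    · left
      intro x
      have := h (e x)
      rw [h1, e.symm_apply_apply] at this
      exact e.injective this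
    · right
      refine ⟨fun x hx => h (e x) ?_, fun x => ?_⟩
      · rw [h1, e.symm_apply_apply, hx]
      · have := h' (e x)
        rw [h1, h1, e.symm_apply_apply, e.symm_apply_apply] at this
        exact e.injective this
  · rintro (h | ⟨h, h'⟩)
    · left
      intro z
      rw [h1, h, e.apply_symm_apply]
    · right
      refine ⟨fun z hz => h (e.symm z) ?_, fun z => ?_⟩
      · rw [h1] at hz
        rw [← e.symm_apply_apply (π (e.symm z)), hz]
      · rw [h1, h1, e.symm_apply_apply, h', e.apply_symm_apply]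

theorem inV_mul (hX : Fintype.card X = 4) (p q : Perm X) (hp : InV p) (hq : ¬ InV q) : ¬ InV (p * q) := by
  let e : X ≃ Fin 4 := Fintype.equivFinOfCardEq hX
  rw [← inV_conj e] at hp hq ⊢
  have h1 : e.permCongr (p * q) = e.permCongr p * e.permCongr q := by
    ext z
    simp [Equiv.permCongr_apply]
  rw [h1]
  exact inV_fin4 _ _ hp hq

end perm

section count

variable {G : Type*} [Group G] [Fintype G] {W : G → Prop}

/-- multiplication by an element which moves `ω` -/
theorem half (hW : ∀ g n : G, ¬ W n → (W (g * n) ↔ ¬ W g)) (P : G → Prop) (n : G) (hn : ¬ W n)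
    (hP : ∀ g, P (g * n) ↔ P g) [DecidablePred W] [DecidablePred P] :
    (univ.filter (fun g => P g ∧ ¬ W g)).card * 2 = (univ.filter P).card ∧
    (univ.filter (fun g => P g ∧ W g)).card * 2 = (univ.filter P).card := by
  have h1 : (univ.filter (fun g => P g ∧ ¬ W g)).card = (univ.filter (fun g => P g ∧ W g)).card := by
    refine card_bij' (fun g _ => g * n) (fun g _ => g * n⁻¹) ?_ ?_ ?_ ?_
    · intro g hg
      obtain ⟨_, hg1, hg2⟩ := mem_filter.1 hg
      exact mem_filter.2 ⟨mem_univ _, (hP g).2 hg1, (hW g n hn).2 hg2⟩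
    · intro g hg
      obtain ⟨_, hg1, hg2⟩ := mem_filter.1 hg
      have h2 := hP (g * n⁻¹)
      have h3 := hW (g * n⁻¹) n hn
      rw [inv_mul_cancel_right] at h2 h3
      exact mem_filter.2 ⟨mem_univ _, h2.1 hg1, h3.1 hg2⟩
    · intro g _
      rw [mul_inv_cancel_right]
    · intro g _
      rw [inv_mul_cancel_right]
  have h2 : (univ.filter P).card = (univ.filter (fun g => P g ∧ ¬ W g)).card +
      (univ.filter (fun g => P g ∧ W g)).card := by
    rw [← card_filter_add_card_filter_not (s := univ.filter P) (p := fun g => ¬ W g), filter_filter, filter_filter]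
    simp only [not_not]
  omega

variable {X : Type*} [Fintype X] [DecidableEq X]

/-- THE COUNT -/
theorem count_quartic (Φ : G →* Perm X) (hX : Fintype.card X = 4)
    (hstab : ∀ x : X, 4 * Nat.card {g : G // Φ g x = x} = Fintype.card G)
    (hW : ∀ g n : G, ¬ W n → (W (g * n) ↔ ¬ W g)) (hn : ∀ x : X, ∃ n : G, Φ n x = x ∧ ¬ W n)
    (hV : ∃ h₀ : G, ¬ InV (Φ h₀)) :
    Fintype.card G ≤ 4 * Nat.card {g : G // (¬ W g ∧ ∃ x, Φ g x = x) ∨
      (W g ∧ (∀ x, Φ g x ≠ x) ∧ ∃ x, Φ g (Φ g x) ≠ x)} := by
  classical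
  rw [Nat.card_eq_fintype_card, Fintype.card_subtype]
  by_cases hA : ∀ n : G, (∀ x, Φ n x = x) → W n
  · -- `ω` in the closure
    have h1 : ∀ g : G, ¬ W g → (univ.filter (fun x => Φ g x = x)).card ≤ 2 := by
      intro g hg
      have hne : Φ g ≠ 1 := by
        intro h
        exact hg (hA g fun x => by rw [h]; rfl)
      have h2 := Equiv.Perm.two_le_card_support_of_ne_one hne
      have h3 : (univ.filter (fun x => Φ g x = x)).card + (Φ g).support.card = Fintype.card X := by
        have h4 : (Φ g).support = univ.filter (fun x => ¬ Φ g x = x) := rfl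
        rw [h4, card_filter_add_card_filter_not, card_univ]
      omega
    have h2 : ∑ g ∈ univ.filter (fun g : G => ¬ W g), (univ.filter (fun x => Φ g x = x)).card =
        ∑ x : X, (univ.filter (fun g : G => Φ g x = x ∧ ¬ W g)).card := by
      simp only [card_filter, sum_filter]
      rw [sum_comm]
      refine sum_congr rfl fun g _ => ?_
      by_cases h3 : W g <;> simp [h3]
    have h3 : ∀ x : X, 8 * (univ.filter (fun g : G => Φ g x = x ∧ ¬ W g)).card = Fintype.card G := by
      intro x
      obtain ⟨n, hn1, hn2⟩ := hn x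
      have h4 := (half hW (fun g => Φ g x = x) n hn2 (fun g => by
        show (Φ (g * n)) x = x ↔ _
        rw [map_mul, Perm.mul_apply, hn1])).1
      have h5 := hstab x
      rw [Nat.card_eq_fintype_card, Fintype.card_subtype] at h5
      omega
    have h4 : 8 * ∑ x : X, (univ.filter (fun g : G => Φ g x = x ∧ ¬ W g)).card = 4 * Fintype.card G := by
      rw [mul_sum, sum_congr rfl fun x _ => h3 x, sum_const, card_univ, hX, smul_eq_mul]
    have h5 : ∑ g ∈ univ.filter (fun g : G => ¬ W g), (univ.filter (fun x => Φ g x = x)).card ≤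
        2 * (univ.filter (fun g : G => ¬ W g ∧ ∃ x, Φ g x = x)).card := by
      have h6 : univ.filter (fun g : G => ¬ W g ∧ ∃ x, Φ g x = x) =
          (univ.filter (fun g : G => ¬ W g)).filter (fun g => ∃ x, Φ g x = x) := by
        rw [filter_filter]
      rw [h6, card_filter, mul_sum]
      refine sum_le_sum fun g hg => ?_
      split_ifs with h7
      · exact h1 g (mem_filter.1 hg).2
      · rw [mul_zero, Nat.le_zero, card_eq_zero, filter_eq_empty_iff]
        push Not at h7
        exact fun x _ => h7 x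
    have h6 : (univ.filter (fun g : G => ¬ W g ∧ ∃ x, Φ g x = x)).card ≤
        (univ.filter (fun g : G => (¬ W g ∧ ∃ x, Φ g x = x) ∨
          (W g ∧ (∀ x, Φ g x ≠ x) ∧ ∃ x, Φ g (Φ g x) ≠ x))).card := by
      refine card_le_card fun g hg => ?_
      exact mem_filter.2 ⟨mem_univ _, Or.inl (mem_filter.1 hg).2⟩
    omega
  · -- `ω` not in the closure
    push Not at hA
    obtain ⟨n₀, hn₀, hn₀W⟩ := hA
    have hΦ : ∀ g : G, Φ (g * n₀) = Φ g := by
      intro g
      rw [map_mul]
      have : Φ n₀ = 1 := Equiv.ext hn₀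
      rw [this, mul_one]
    have h1 := (half hW (fun g => ∃ x, Φ g x = x) n₀ hn₀W (fun g => by
      show (∃ x, Φ (g * n₀) x = x) ↔ _
      rw [hΦ])).1
    have h2 := (half hW (fun g => (∀ x, Φ g x ≠ x) ∧ ∃ x, Φ g (Φ g x) ≠ x) n₀ hn₀W (fun g => by
      show ((∀ x, Φ (g * n₀) x ≠ x) ∧ ∃ x, Φ (g * n₀) (Φ (g * n₀) x) ≠ x) ↔ _
      rw [hΦ])).2
    -- the complement of the union
    have h3 : (univ.filter (fun g : G => ¬ InV (Φ g))).card ≤ (univ.filter (fun g : G => ∃ x, Φ g x = x)).card +
        (univ.filter (fun g : G => (∀ x, Φ g x ≠ x) ∧ ∃ x, Φ g (Φ g x) ≠ x)).card := by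
      rw [← card_union_of_disjoint]
      · refine card_le_card fun g hg => ?_
        have h4 := (mem_filter.1 hg).2
        rw [mem_union]
        by_cases h5 : ∃ x, Φ g x = x
        · exact Or.inl (mem_filter.2 ⟨mem_univ _, h5⟩)
        · right
          push Not at h5
          refine mem_filter.2 ⟨mem_univ _, h5, ?_⟩
          by_contra h6
          push Not at h6
          exact h4 (Or.inr ⟨h5, h6⟩)
      · rw [disjoint_left]
        intro g hg hg'
        obtain ⟨x, hx⟩ := (mem_filter.1 hg).2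
        exact (mem_filter.1 hg').2.1 x hx
    obtain ⟨h₀, hh₀⟩ := hV
    have h4 : (univ.filter (fun g : G => InV (Φ g))).card ≤ (univ.filter (fun g : G => ¬ InV (Φ g))).card := by
      refine card_le_card_of_injOn (fun g => g * h₀) ?_ ?_
      · intro g hg
        have h5 := (mem_filter.1 (mem_coe.1 hg)).2
        refine mem_coe.2 (mem_filter.2 ⟨mem_univ _, ?_⟩)
        show ¬ InV (Φ (g * h₀))
        rw [map_mul]
        exact inV_mul hX _ _ h5 hh₀
      · intro a _ b _ hab
        exact mul_right_cancel hab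
    have h5 : (univ.filter (fun g : G => InV (Φ g))).card + (univ.filter (fun g : G => ¬ InV (Φ g))).card =
        Fintype.card G := by
      rw [card_filter_add_card_filter_not, card_univ]
    have h6 : (univ.filter (fun g : G => (∃ x, Φ g x = x) ∧ ¬ W g)).card +
        (univ.filter (fun g : G => ((∀ x, Φ g x ≠ x) ∧ ∃ x, Φ g (Φ g x) ≠ x) ∧ W g)).card ≤
        (univ.filter (fun g : G => (¬ W g ∧ ∃ x, Φ g x = x) ∨
          (W g ∧ (∀ x, Φ g x ≠ x) ∧ ∃ x, Φ g (Φ g x) ≠ x))).card := by
      rw [← card_union_of_disjoint]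
      · refine card_le_card fun g hg => ?_
        rcases mem_union.1 hg with h | h
        · obtain ⟨_, h7, h8⟩ := mem_filter.1 h
          exact mem_filter.2 ⟨mem_univ _, Or.inl ⟨h8, h7⟩⟩
        · obtain ⟨_, h7, h8⟩ := mem_filter.1 h
          exact mem_filter.2 ⟨mem_univ _, Or.inr ⟨h8, h7⟩⟩
      · rw [disjoint_left]
        intro g hg hg'
        exact (mem_filter.1 hg).2.2 (mem_filter.1 hg').2.2
    omega

end count

end Pool.Agent.H89.FE
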