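import Mathlib

/-!
# Permutations and partitions

`zed M = ∏ k ^ m_k m_k!` for a multiset `M`; the number of permutations whose cycle type (with the fixed points)
is `M` is `n! / zed M`; the recurrence `n h_n = ∑ w_k h_(n-k)` for
`h_n = ∑_(M ⊢ n) ∏_(k ∈ M) w_k / zed M`.
-/

set_option autoImplicit false

open Finset Equiv

namespace Pool.Agent.H89.FE

/-- `zed M = ∏ k ^ m_k m_k!` -/
def zed (M : Multiset ℕ) : ℕ := M.prod * ∏ k ∈ M.toFinset, (M.count k).factorial

theorem zed_zero : zed 0 = 1 := by simp [zed]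

theorem zed_cons (k : ℕ) (M : Multiset ℕ) : zed (k ::ₘ M) = k * (M.count k + 1) * zed M := by
  classical
  have h1 : ∀ N : Multiset ℕ, ∀ s : Finset ℕ, N.toFinset ⊆ s →
      ∏ j ∈ N.toFinset, (N.count j).factorial = ∏ j ∈ s, (N.count j).factorial := by
    intro N s hs
    refine prod_subset hs fun j _ hj => ?_
    rw [Multiset.mem_toFinset] at hj
    rw [Multiset.count_eq_zero.2 hj, Nat.factorial_zero]
  rw [zed, zed, Multiset.prod_cons, h1 M (k ::ₘ M).toFinset (by
    intro j hj
    rw [Multiset.mem_toFinset] at hj ⊢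
    exact Multiset.mem_cons_of_mem hj)]
  have hk : k ∈ (k ::ₘ M).toFinset := by
    rw [Multiset.mem_toFinset]
    exact Multiset.mem_cons_self k M
  rw [← mul_prod_erase _ _ hk, ← mul_prod_erase _ _ hk, Multiset.count_cons_self, Nat.factorial_succ]
  have h2 : ∏ j ∈ (k ::ₘ M).toFinset.erase k, ((k ::ₘ M).count j).factorial =
      ∏ j ∈ (k ::ₘ M).toFinset.erase k, (M.count j).factorial := by
    refine prod_congr rfl fun j hj => ?_
    rw [Multiset.count_cons_of_ne (mem_erase.1 hj).1]
  rw [h2]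
  ring

theorem zed_pos {M : Multiset ℕ} (h : ∀ k ∈ M, 0 < k) : 0 < zed M := by
  refine Nat.mul_pos (Multiset.prod_pos fun k hk => h k hk) (prod_pos fun k _ => Nat.factorial_pos _)

/-- the partitions of `n` as a finite set of multisets -/
def PP (n : ℕ) : Finset (Multiset ℕ) := (univ : Finset (Nat.Partition n)).image fun l => l.parts

theorem mem_PP {n : ℕ} {M : Multiset ℕ} : M ∈ PP n ↔ M.sum = n ∧ ∀ k ∈ M, 0 < k := by
  rw [PP, mem_image]
  constructor
  · rintro ⟨l, _, rfl⟩
    exact ⟨l.parts_sum, fun k hk => l.parts_pos hk⟩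
  · rintro ⟨h1, h2⟩
    exact ⟨⟨M, fun {k} hk => h2 k hk, h1⟩, mem_univ _, rfl⟩

/-- the number of permutations of a given type -/
theorem card_perm {α : Type*} [Fintype α] [DecidableEq α] {M : Multiset ℕ} (hM : M ∈ PP (Fintype.card α)) :
    (univ.filter (fun g : Perm α => g.partition.parts = M)).card * zed M = (Fintype.card α).factorial := by
  classical
  obtain ⟨hsum, hpos⟩ := mem_PP.1 hM
  set m := M.filter (fun k => 2 ≤ k) with hm
  have hsplit : M = m + Multiset.replicate (M.count 1) 1 := by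
    have h1 : M = m + M.filter (fun k => ¬ 2 ≤ k) := (Multiset.filter_add_not _ M).symm
    have h2 : M.filter (fun k => ¬ 2 ≤ k) = Multiset.replicate (M.count 1) 1 := by
      rw [← Multiset.filter_eq' M 1]
      refine Multiset.filter_congr fun k hk => ?_
      have := hpos k hk
      omega
    rw [← h2]
    exact h1
  have hs : m.sum + M.count 1 = Fintype.card α := by
    rw [← hsum]
    conv_rhs => rw [hsplit]
    rw [Multiset.sum_add, Multiset.sum_replicate, smul_eq_mul, mul_one]
  have hcond : m.sum ≤ Fintype.card α ∧ ∀ a ∈ m, 2 ≤ a :=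
    ⟨by omega, fun a ha => (Multiset.mem_filter.1 ha).2⟩
  have h3 := Equiv.Perm.card_of_cycleType_mul_eq α m
  rw [if_pos hcond] at h3
  have h4 : (univ.filter (fun g : Perm α => g.partition.parts = M)) =
      univ.filter (fun g : Perm α => g.cycleType = m) := by
    ext g
    simp only [mem_filter, mem_univ, true_and]
    constructor
    · intro h
      rw [← Equiv.Perm.filter_parts_partition_eq_cycleType, h]
    · intro h
      rw [Equiv.Perm.parts_partition, h, ← Equiv.Perm.sum_cycleType, h]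
      conv_rhs => rw [hsplit]
      congr 2
      omega
  rw [h4, ← h3]
  congr 1
  have h5 : Fintype.card α - m.sum = M.count 1 := by omega
  have h6 : M.prod = m.prod := by
    conv_lhs => rw [hsplit]
    rw [Multiset.prod_add, Multiset.prod_replicate, one_pow, mul_one]
  have h1m : (1 : ℕ) ∉ m.toFinset := by
    rw [Multiset.mem_toFinset, hm, Multiset.mem_filter]
    omega
  have h7 : ∏ k ∈ M.toFinset, (M.count k).factorial = ∏ k ∈ insert 1 m.toFinset, (M.count k).factorial := by
    refine prod_subset ?_ ?_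
    · intro k hk
      rw [Multiset.mem_toFinset] at hk
      rw [mem_insert, Multiset.mem_toFinset, hm, Multiset.mem_filter]
      have := hpos k hk
      rcases Nat.lt_or_ge k 2 with h | h
      · left; omega
      · right; exact ⟨hk, h⟩
    · intro k _ hk
      rw [Multiset.mem_toFinset] at hk
      rw [Multiset.count_eq_zero.2 hk, Nat.factorial_zero]
  have h8 : ∏ k ∈ m.toFinset, (M.count k).factorial = ∏ k ∈ m.toFinset, (m.count k).factorial := by
    refine prod_congr rfl fun k hk => ?_
    rw [Multiset.mem_toFinset, hm, Multiset.mem_filter] at hk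
    rw [hm, Multiset.count_filter_of_pos hk.2]
  rw [zed, h6, h7, prod_insert h1m, h8, h5]
  ring

/-- weighted sums over the partitions of `n` -/
noncomputable def hh (w : ℕ → ℝ) (n : ℕ) : ℝ := ∑ M ∈ PP n, (M.map w).prod / zed M

theorem hh_zero (w : ℕ → ℝ) : hh w 0 = 1 := by
  have : PP 0 = {0} := by
    ext M
    rw [mem_PP, mem_singleton]
    constructor
    · rintro ⟨h1, h2⟩
      refine Multiset.eq_zero_of_forall_notMem fun k hk => ?_
      have h3 := h2 k hk
      have h4 := Multiset.single_le_sum (fun x _ => Nat.zero_le x) k hk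
      omega
    · rintro rfl
      simp
  rw [hh, this, sum_singleton, zed_zero]
  simp

/-- THE RECURRENCE -/
theorem hh_rec (w : ℕ → ℝ) (n : ℕ) : (n : ℝ) * hh w n = ∑ k ∈ Icc 1 n, w k * hh w (n - k) := by
  classical
  have h1 : ∀ M ∈ PP n, (n : ℝ) * ((M.map w).prod / zed M) =
      ∑ k ∈ M.toFinset, w k * (((M.erase k).map w).prod / zed (M.erase k)) := by
    intro M hM
    obtain ⟨hsum, hpos⟩ := mem_PP.1 hM
    have h2 : (n : ℝ) = ∑ k ∈ M.toFinset, (M.count k : ℝ) * k := by
      have h3 := Finset.sum_multiset_count M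
      rw [hsum] at h3
      simp only [smul_eq_mul] at h3
      rw [h3]
      push_cast
      rfl
    rw [h2, sum_mul]
    refine sum_congr rfl fun k hk => ?_
    rw [Multiset.mem_toFinset] at hk
    obtain ⟨N, rfl⟩ := Multiset.exists_cons_of_mem hk
    rw [Multiset.erase_cons_head, zed_cons, Multiset.map_cons, Multiset.prod_cons, Multiset.count_cons_self]
    have hk0 : (0 : ℝ) < k := by exact_mod_cast hpos k hk
    have hN : (0 : ℝ) < zed N := by
      exact_mod_cast zed_pos fun j hj => hpos j (Multiset.mem_cons_of_mem hj)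
    push_cast
    field_simp
  rw [hh, mul_sum, sum_congr rfl h1]
  have h2 : ∑ k ∈ Icc 1 n, w k * hh w (n - k) =
      ∑ k ∈ Icc 1 n, ∑ N ∈ PP (n - k), w k * ((N.map w).prod / zed N) := by
    refine sum_congr rfl fun k _ => ?_
    rw [hh, mul_sum]
  rw [h2, sum_sigma', sum_sigma']
  refine sum_bij' (fun x _ => ⟨x.2, x.1.erase x.2⟩) (fun y _ => ⟨y.1 ::ₘ y.2, y.1⟩) ?_ ?_ ?_ ?_ ?_
  · rintro ⟨M, k⟩ h
    obtain ⟨hM, hk⟩ := mem_sigma.1 h
    obtain ⟨hsum, hpos⟩ := mem_PP.1 hM
    simp only [Multiset.mem_toFinset] at hk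
    have h3 := Multiset.single_le_sum (fun x _ => Nat.zero_le x) k hk
    have h4 := Multiset.sum_erase hk
    refine mem_sigma.2 ⟨mem_Icc.2 ⟨hpos k hk, by simp only at hsum ⊢; omega⟩, mem_PP.2 ⟨?_, ?_⟩⟩
    · simp only at hsum ⊢
      omega
    · intro j hj
      exact hpos j (Multiset.mem_of_mem_erase hj)
  · rintro ⟨k, N⟩ h
    obtain ⟨hk, hN⟩ := mem_sigma.1 h
    obtain ⟨hsum, hpos⟩ := mem_PP.1 hN
    obtain ⟨hk1, hk2⟩ := mem_Icc.1 hk
    refine mem_sigma.2 ⟨mem_PP.2 ⟨?_, ?_⟩, ?_⟩
    · rw [Multiset.sum_cons]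
      simp only at hsum hk1 hk2 ⊢
      omega
    · intro j hj
      rcases Multiset.mem_cons.1 hj with h | h
      · rw [h]
        exact hk1
      · exact hpos j h
    · rw [Multiset.mem_toFinset]
      exact Multiset.mem_cons_self _ _
  · rintro ⟨M, k⟩ h
    obtain ⟨hM, hk⟩ := mem_sigma.1 h
    simp only [Multiset.mem_toFinset] at hk
    simp only [Multiset.cons_erase hk]
  · rintro ⟨k, N⟩ h
    simp only [Multiset.erase_cons_head]
  · rintro ⟨M, k⟩ h
    rfl

end Pool.Agent.H89.FE
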